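import Pool.Agent.Helper96_LAX.Stmts

/-! helper17: module IT of squad LAX (MP_0a041d_co): independent transversals by counting. -/

set_option autoImplicit false

open Finset

namespace Pool.Agent.LAX.H17

section

variable {Z ι : Type} [Fintype Z] [Fintype ι] [DecidableEq Z] [DecidableEq ι]

open Classical in
/-- Partial independent transversals. -/
noncomputable def TT (B : ι → Finset Z) (conf : Z → Z → Prop) (z0 : Z) (S : Finset ι) :
    Finset (ι → Z) :=
  (Fintype.piFinset (fun i => if i ∈ S then B i else {z0})).filter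
    (fun f => ∀ i ∈ S, ∀ j ∈ S, i ≠ j → ¬ conf (f i) (f j))

lemma mem_TT {B : ι → Finset Z} {conf : Z → Z → Prop} {z0 : Z} {S : Finset ι} {f : ι → Z} :
    f ∈ TT B conf z0 S ↔ (∀ i ∈ S, f i ∈ B i) ∧ (∀ i, i ∉ S → f i = z0) ∧
      ∀ i ∈ S, ∀ j ∈ S, i ≠ j → ¬ conf (f i) (f j) := by
  classical
  unfold TT
  rw [Finset.mem_filter, Fintype.mem_piFinset, ← and_assoc]
  refine and_congr_left fun _ => ?_
  constructor
  · intro h
    refine ⟨fun i hi => ?_, fun i hi => ?_⟩
    · have := h i
      rwa [if_pos hi] at this
    · have := h i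
      rwa [if_neg hi, Finset.mem_singleton] at this
  · rintro ⟨h1, h2⟩ i
    by_cases hi : i ∈ S
    · rw [if_pos hi]; exact h1 i hi
    · rw [if_neg hi, Finset.mem_singleton]; exact h2 i hi

theorem key {B : ι → Finset Z} {conf : Z → Z → Prop} {z0 : Z} {d : ℕ} (hd : 1 ≤ d)
    (hsym : ∀ x y, conf x y → conf y x) (hdis : ∀ i j, i ≠ j → Disjoint (B i) (B j))
    (hB : ∀ i, (B i).card = 4 * d)
    (hconf : ∀ x, {y | (∃ i, y ∈ B i) ∧ conf x y}.ncard ≤ d)
    (S : Finset ι) (j : ι) (hj : j ∉ S)
    (hS : ∀ i ∈ S, 2 * d * (TT B conf z0 (S.erase i)).card ≤ (TT B conf z0 S).card) :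
    2 * d * (TT B conf z0 S).card ≤ (TT B conf z0 (insert j S)).card := by
  classical
  set t := (TT B conf z0 S).card with ht
  set G := (TT B conf z0 S ×ˢ B j).filter (fun p => ¬ ∃ i ∈ S, conf (p.1 i) p.2) with hG
  set Bd := (TT B conf z0 S ×ˢ B j).filter (fun p => ∃ i ∈ S, conf (p.1 i) p.2) with hBd
  have h1 : Bd.card + G.card = t * (4 * d) := by
    rw [hBd, hG, Finset.card_filter_add_card_filter_not, Finset.card_product, hB]
  have h2 : G.card ≤ (TT B conf z0 (insert j S)).card := by
    refine Finset.card_le_card_of_injOn (fun p => Function.update p.1 j p.2) ?_ ?_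
    · rintro ⟨f, x⟩ hp
      have hp' := Finset.mem_filter.1 (Finset.mem_coe.1 hp)
      obtain ⟨hf, hx⟩ := Finset.mem_product.1 hp'.1
      simp only at hf hx
      have hp2 := hp'.2
      push Not at hp2
      rw [mem_TT] at hf
      obtain ⟨f1, f2, f3⟩ := hf
      show Function.update f j x ∈ (TT B conf z0 (insert j S) : Set (ι → Z))
      rw [Finset.mem_coe, mem_TT]
      refine ⟨?_, ?_, ?_⟩
      · intro i hi
        by_cases hij : i = j
        · subst hij
          simp only [Function.update_self]
          exact hx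
        · rw [Function.update_of_ne hij]
          exact f1 i ((Finset.mem_insert.1 hi).resolve_left hij)
      · intro i hi
        have hij : i ≠ j := fun h => hi (h ▸ Finset.mem_insert_self _ _)
        rw [Function.update_of_ne hij]
        exact f2 i (fun h => hi (Finset.mem_insert_of_mem h))
      · intro i hi i' hi' hii
        by_cases hij : i = j
        · subst hij
          have hi'S := (Finset.mem_insert.1 hi').resolve_left (fun h => hii h.symm)
          rw [Function.update_self, Function.update_of_ne (fun h => hii h.symm)]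
          exact fun h => hp2 i' hi'S (hsym _ _ h)
        · have hiS := (Finset.mem_insert.1 hi).resolve_left hij
          rw [Function.update_of_ne hij]
          by_cases hij' : i' = j
          · subst hij'
            rw [Function.update_self]
            exact hp2 i hiS
          · rw [Function.update_of_ne hij']
            exact f3 i hiS i' ((Finset.mem_insert.1 hi').resolve_left hij') hii
    · rintro ⟨f, x⟩ hp ⟨f', x'⟩ hp' heq
      simp only at heq
      have hf := (mem_TT.1 (Finset.mem_product.1 (Finset.mem_filter.1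
        (Finset.mem_coe.1 hp)).1).1).2.1
      have hf' := (mem_TT.1 (Finset.mem_product.1 (Finset.mem_filter.1
        (Finset.mem_coe.1 hp')).1).1).2.1
      have hx : x = x' := by
        have := congrFun heq j
        rwa [Function.update_self, Function.update_self] at this
      have hff : f = f' := by
        funext i
        by_cases hij : i = j
        · rw [hij]
          exact (hf j hj).trans (hf' j hj).symm
        · have := congrFun heq i
          rwa [Function.update_of_ne hij, Function.update_of_ne hij] at this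
      rw [hx, hff]
  have h3 : ∀ x ∈ B j, 2 * ((TT B conf z0 S).filter (fun f => ∃ i ∈ S, conf (f i) x)).card ≤ t := by
    intro x _
    set Cx : Finset Z := univ.filter (fun y => (∃ i ∈ S, y ∈ B i) ∧ conf y x) with hCx
    have hCc : Cx.card ≤ d := by
      refine le_trans ?_ (hconf x)
      rw [← Set.ncard_coe_finset]
      refine Set.ncard_le_ncard ?_ (Set.toFinite _)
      intro y hy
      have hy' := (Finset.mem_filter.1 (Finset.mem_coe.1 hy)).2
      obtain ⟨i, -, hi⟩ := hy'.1
      exact ⟨⟨i, hi⟩, hsym _ _ hy'.2⟩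
    have hsub : (TT B conf z0 S).filter (fun f => ∃ i ∈ S, conf (f i) x) ⊆
        Cx.biUnion (fun y => (TT B conf z0 S).filter (fun f => ∃ i ∈ S, f i = y)) := by
      intro f hf
      obtain ⟨hf1, i, hi, hc⟩ := Finset.mem_filter.1 hf
      rw [Finset.mem_biUnion]
      refine ⟨f i, ?_, Finset.mem_filter.2 ⟨hf1, i, hi, rfl⟩⟩
      rw [hCx, Finset.mem_filter]
      exact ⟨mem_univ _, ⟨i, hi, (mem_TT.1 hf1).1 i hi⟩, hc⟩
    have hy : ∀ y ∈ Cx, 2 * d * ((TT B conf z0 S).filter (fun f => ∃ i ∈ S, f i = y)).card ≤
        t := by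
      intro y hy
      obtain ⟨⟨i, hi, hyi⟩, -⟩ := (Finset.mem_filter.1 hy).2
      refine le_trans (Nat.mul_le_mul_left _ ?_) (hS i hi)
      refine Finset.card_le_card_of_injOn (fun f => Function.update f i z0) ?_ ?_
      · intro f hf
        obtain ⟨hf1, -⟩ := Finset.mem_filter.1 (Finset.mem_coe.1 hf)
        obtain ⟨f1, f2, f3⟩ := mem_TT.1 hf1
        show Function.update f i z0 ∈ (TT B conf z0 (S.erase i) : Set (ι → Z))
        rw [Finset.mem_coe, mem_TT]
        refine ⟨?_, ?_, ?_⟩
        · intro a ha
          rw [Finset.mem_erase] at ha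
          rw [Function.update_of_ne ha.1]
          exact f1 a ha.2
        · intro a ha
          by_cases hai : a = i
          · rw [hai, Function.update_self]
          · rw [Function.update_of_ne hai]
            exact f2 a (fun h => ha (Finset.mem_erase.2 ⟨hai, h⟩))
        · intro a ha a' ha' haa
          rw [Finset.mem_erase] at ha ha'
          rw [Function.update_of_ne ha.1, Function.update_of_ne ha'.1]
          exact f3 a ha.2 a' ha'.2 haa
      · have hval : ∀ f ∈ (TT B conf z0 S).filter (fun f => ∃ i ∈ S, f i = y), f i = y := by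
          intro f hf
          obtain ⟨hf1, i', hi', hfy⟩ := Finset.mem_filter.1 hf
          by_cases hii : i = i'
          · rw [hii]; exact hfy
          · exfalso
            have h4 := (mem_TT.1 hf1).1 i' hi'
            rw [hfy] at h4
            exact Finset.disjoint_left.1 (hdis i i' hii) hyi h4
        intro f hf f' hf' heq
        have e1 := hval f (Finset.mem_coe.1 hf)
        have e2 := hval f' (Finset.mem_coe.1 hf')
        funext a
        by_cases hai : a = i
        · rw [hai, e1, e2]
        · have := congrFun heq a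
          simp only at this
          rwa [Function.update_of_ne hai, Function.update_of_ne hai] at this
    have h4 : 2 * d * ((TT B conf z0 S).filter (fun f => ∃ i ∈ S, conf (f i) x)).card ≤
        d * t := by
      calc 2 * d * ((TT B conf z0 S).filter (fun f => ∃ i ∈ S, conf (f i) x)).card
          ≤ 2 * d * ∑ y ∈ Cx, ((TT B conf z0 S).filter (fun f => ∃ i ∈ S, f i = y)).card :=
            Nat.mul_le_mul_left _ ((Finset.card_le_card hsub).trans Finset.card_biUnion_le)
        _ = ∑ y ∈ Cx, 2 * d * ((TT B conf z0 S).filter (fun f => ∃ i ∈ S, f i = y)).card :=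
            Finset.mul_sum _ _ _
        _ ≤ ∑ _y ∈ Cx, t := Finset.sum_le_sum hy
        _ = Cx.card * t := by rw [Finset.sum_const, smul_eq_mul]
        _ ≤ d * t := Nat.mul_le_mul_right _ hCc
    have h5 : d * (2 * ((TT B conf z0 S).filter (fun f => ∃ i ∈ S, conf (f i) x)).card) ≤
        d * t := by
      calc _ = 2 * d * ((TT B conf z0 S).filter (fun f => ∃ i ∈ S, conf (f i) x)).card := by
            ring
        _ ≤ d * t := h4
    exact Nat.le_of_mul_le_mul_left h5 (by omega)
  have h6 : 2 * Bd.card ≤ 4 * d * t := by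
    have h7 : Bd.card = ∑ x ∈ B j,
        ((TT B conf z0 S).filter (fun f => ∃ i ∈ S, conf (f i) x)).card := by
      rw [hBd, Finset.card_filter, Finset.sum_product_right]
      exact Finset.sum_congr rfl fun x _ => by rw [Finset.card_filter]
    rw [h7, Finset.mul_sum]
    calc ∑ x ∈ B j, 2 * ((TT B conf z0 S).filter (fun f => ∃ i ∈ S, conf (f i) x)).card
        ≤ ∑ _x ∈ B j, t := Finset.sum_le_sum h3
      _ = 4 * d * t := by rw [Finset.sum_const, smul_eq_mul, hB]
  have h8 : t * (4 * d) = 4 * d * t := by ring
  have h9 : 2 * d * t * 2 = 4 * d * t := by ring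
  omega

end

theorem it : ITStmt := by
  classical
  intro Z ι _ _ A conf d hd hsym hdis hA hconf
  haveI := Fintype.ofFinite Z
  haveI := Fintype.ofFinite ι
  rcases isEmpty_or_nonempty ι with hι | hι
  · exact ⟨fun i => isEmptyElim i, fun i => isEmptyElim i, fun i => isEmptyElim i⟩
  have hex : ∀ i, ∃ B : Finset Z, (B : Set Z) ⊆ A i ∧ B.card = 4 * d := by
    intro i
    have h1 : 4 * d ≤ (A i).toFinset.card := by
      rw [← Set.ncard_eq_toFinset_card']
      exact hA i
    obtain ⟨B, hB1, hB2⟩ := Finset.exists_subset_card_eq h1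
    exact ⟨B, fun x hx => Set.mem_toFinset.1 (hB1 hx), hB2⟩
  choose B hB1 hB2 using hex
  have hdis' : ∀ i j, i ≠ j → Disjoint (B i) (B j) := by
    intro i j hij
    rw [Finset.disjoint_left]
    intro x hx hx'
    exact Set.disjoint_left.1 (hdis i j hij) (hB1 i hx) (hB1 j hx')
  have hconf' : ∀ x, {y | (∃ i, y ∈ B i) ∧ conf x y}.ncard ≤ d := by
    intro x
    refine le_trans (Set.ncard_le_ncard ?_ (Set.toFinite _)) (hconf x)
    rintro y ⟨⟨i, hi⟩, hy⟩
    exact ⟨⟨i, hB1 i hi⟩, hy⟩
  obtain ⟨i0⟩ := hι
  obtain ⟨z0, -⟩ : (B i0).Nonempty := by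
    rw [← Finset.card_pos, hB2]
    omega
  have hP : ∀ n : ℕ, ∀ S : Finset ι, S.card = n →
      (∀ i ∈ S, 2 * d * (TT B conf z0 (S.erase i)).card ≤ (TT B conf z0 S).card) ∧
        0 < (TT B conf z0 S).card := by
    intro n
    induction n with
    | zero =>
      intro S hS
      rw [Finset.card_eq_zero] at hS
      subst hS
      refine ⟨fun i hi => absurd hi (Finset.notMem_empty i), Finset.card_pos.2 ⟨fun _ => z0, ?_⟩⟩
      rw [mem_TT]
      exact ⟨fun i hi => absurd hi (Finset.notMem_empty i), fun _ _ => rfl,
        fun i hi => absurd hi (Finset.notMem_empty i)⟩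
    | succ n ih =>
      intro S hS
      have h1 : ∀ i ∈ S, 2 * d * (TT B conf z0 (S.erase i)).card ≤ (TT B conf z0 S).card := by
        intro i hi
        have hc : (S.erase i).card = n := by
          rw [Finset.card_erase_of_mem hi, hS]
          rfl
        have h2 := key (z0 := z0) hd hsym hdis' hB2 hconf' (S.erase i) i (Finset.notMem_erase i S)
          (ih (S.erase i) hc).1
        rwa [Finset.insert_erase hi] at h2
      refine ⟨h1, ?_⟩
      obtain ⟨i, hi⟩ : S.Nonempty := Finset.card_pos.1 (by omega)
      have hc : (S.erase i).card = n := by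
        rw [Finset.card_erase_of_mem hi, hS]
        rfl
      have h3 := (ih (S.erase i) hc).2
      have h4 : 0 < 2 * d * (TT B conf z0 (S.erase i)).card := by positivity
      exact lt_of_lt_of_le h4 (h1 i hi)
  obtain ⟨f, hf⟩ := Finset.card_pos.1 (hP _ univ rfl).2
  obtain ⟨f1, -, f3⟩ := mem_TT.1 hf
  exact ⟨f, fun i => hB1 i (f1 i (mem_univ i)), fun i j hij => f3 i (mem_univ i) j (mem_univ j) hij⟩

end Pool.Agent.LAX.H17
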