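import Pool.Agent.Helper96_LAX.Stmts

/-! helper17: module WIN of squad LAX (MP_0a041d_co). -/

set_option autoImplicit false

namespace Pool.Agent.LAX.H17

theorem win : WinStmt := by
  intro V F S g hcw hS x hx
  set r : V → V → Prop := fun a b => (a, b) ∈ F \ S with hr
  have hstep : ∀ y : {y // Relation.TransGen r y y}, ∃ z : {z // Relation.TransGen r z z},
      r y.1 z.1 := by
    rintro ⟨y, hy⟩
    obtain ⟨z, hyz, hzy⟩ := Relation.TransGen.head'_iff.1 hy
    exact ⟨⟨z, Relation.TransGen.trans_right hzy (Relation.TransGen.single hyz)⟩, hyz⟩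
  choose f hf using hstep
  set c : ℕ → V := fun n => (f^[n] ⟨x, hx⟩).1 with hc
  have hcr : ∀ i, r (c i) (c (i + 1)) := by
    intro i
    simp only [hc]
    rw [Function.iterate_succ_apply']
    exact hf _
  obtain ⟨i, -, hi⟩ := hS c (fun i _ => (hcr i).1) (by
    intro i j hij hj hcij
    have h1 := hcw (j - i) (fun t => c (i + t)) (by omega) (fun t _ => by
      have := (hcr (i + t)).1
      simpa [add_assoc] using this) (by
      show c (i + (j - i)) = c (i + 0)
      rw [add_zero, hcij]
      congr 1
      omega)
    omega)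
  exact (hcr i).2 hi

end Pool.Agent.LAX.H17
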